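import Pool.Agent.R846.VE.K

/-!
# Almost no run of ordinates satisfies algebraic equations of bounded degree with coefficients in a
given finite-dimensional space

Let `0 < γ_1 ≤ γ_2 ≤ …` be the ordinates of the nontrivial zeros of the zeta function, with
multiplicity.  No hypothesis is assumed.  Fix a degree `d` and `ρ > 0`.  There is `δ = δ(d, ρ) > 0`
with the following property.  Let `V ⊆ ℝ^{L+1}` be *any* real vector space of dimension at most `k`,
`L` being large and `L log L ≤ log N`.  Then for almost all `n ≤ N` and *all* `w_0, …, w_d ∈ V` (which
may thus depend on `n`) the equation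

`w_0(j) + w_1(j) x + … + w_d(j) x^d = 0`

has a root `x` with `|γ_{n+j} - x| ≤ δ √(log L) / log γ_n` for at most `ρ L` of the places
`0 ≤ j ≤ L` at which it is not trivial (not all `w_q(j)` vanish).

For instance, let `y^1, …, y^r` be given sequences, such as other runs `y^i_j = γ_{m_i+j}` of
ordinates, and let `V` be spanned by the sequences `j ↦ M(y^1_j, …, y^r_j)`, `M` a monomial of degree
at most `D`.  If `P` is a real polynomial in `r + 1` variables, of degree at most `d` in the first and
at most `D` in the others, then `P(x, y^1_j, …, y^r_j) = ∑ w_q(j) x^q` with `w_q ∈ V`.  So for almost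
all `n` there is no such `P`, even depending on `n`, with `P(γ_{n+j}, y^1_j, …, y^r_j) = 0` for at
least `ρ L` of the `j` with `P(·, y^1_j, …, y^r_j) ≠ 0`; and this remains true if the `γ_{n+j}` are
moved by up to `δ √(log L) / log γ_n`, that is, `δ √(log L) / 2π` mean spacings.

Idea of the proof.  If the set of the places of agreement has density `ρ`, then there are a distance
`a` and a positive proportion of the `j` for which `j` and `j + a` are such places, and averaging over
the offsets one is led to the normalised fluctuations `Z_k(t)` of the number of zeros of windows of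
length `a` at `K` equidistant positions.  By the mixed normal law for two far positions
(`Pool.Agent.R321.QA.cfA`, `cfB`, helper321), for *all* weights `|w_k| ≤ 1` the average of
`w_k (e^{i ξ Z_k(t)} - e^{-ξ²/2})` is small for most `t`.  If the above happened for a positive
proportion of the `t`, one could choose among these a large bounded number `t_1, …, t_N`, one after the
other (the weights being products of the characters at the heights already chosen), such that the
values `(Z_k(t_1), …, Z_k(t_N))`, as `k` varies, are distributed almost like independent normal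
variables.  The signs of the polynomials and of their derivatives at the points of a grid around the
expected position of the ordinates, at the places belonging to `k`, take only `O(N^C)` values as `k`
varies (they are the signs of `N` linear functionals at points of a space of bounded dimension;
Sauer's lemma), and they isolate the roots: only `O(d²)` intervals of the grid can contain one.  So
they determine `O(d⁴)` numbers to one of which `Z_k(t_i)` has to be near.  For a positive proportion of
the `k` a positive proportion of the numbers `Z_k(t_i)` are near to the numbers so prescribed, but for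
each of the `O(N^C)` prescriptions the proportion of such `k` is exponentially small in `N`.
-/

set_option autoImplicit false

namespace Pool.Agent.Results.MP_ec260d_nt.AlgebraicEquations

/-- multiplicity of `s` as a zero of the Riemann zeta function (order of vanishing at `s`) -/
noncomputable def zmult (s : ℂ) : ℕ := analyticOrderNatAt riemannZeta s

/-- the number of nontrivial zeros of `ζ` with ordinate in `(0, t]`, with multiplicity -/
noncomputable def NZ (t : ℝ) : ℕ :=
  ∑ᶠ s ∈ {s : ℂ | riemannZeta s = 0 ∧ 0 < s.re ∧ s.re < 1 ∧ 0 < s.im ∧ s.im ≤ t}, zmult s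

/-- for `n ≥ 1`: the `n`-th positive ordinate `γ n` of a nontrivial zero of `ζ`, the ordinates being
listed in nondecreasing order and repeated according to multiplicity -/
noncomputable def γ (n : ℕ) : ℝ := sInf {t : ℝ | n ≤ NZ t}

/-- **Theorem** (no hypothesis).  For all `d` and `ρ > 0` there is `δ > 0`, and for all `k` and
`η > 0` there is `L₀`, such that for all `L ≥ L₀`, all `N ≥ 1` with `L log L ≤ log N` and every linear
subspace `V` of `ℝ^{L+1}` of dimension at most `k`, at most `η N` of the indices `n ≤ N` are such that
there are `w_0, …, w_d ∈ V` for which, for at least `ρ L` of the places `0 ≤ j ≤ L`, the polynomial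
`w_0(j) + w_1(j) x + … + w_d(j) x^d` is not zero and has a root `x` with
`|γ_{n+j} - x| ≤ δ √(log L) / log γ_n`. -/
theorem result (d : ℕ) (ρ : ℝ) (hρ : 0 < ρ) : ∃ δ : ℝ, 0 < δ ∧ ∀ (k : ℕ) (η : ℝ), 0 < η → ∃ L₀ : ℕ,
    ∀ L : ℕ, L₀ ≤ L → ∀ N : ℕ, 1 ≤ N → L * Real.log L ≤ Real.log N →
    ∀ V : Submodule ℝ (Fin (L + 1) → ℝ), Module.finrank ℝ V ≤ k →
    ({n : ℕ | 1 ≤ n ∧ n ≤ N ∧ ∃ w : Fin (d + 1) → Fin (L + 1) → ℝ, (∀ q, w q ∈ V) ∧ ρ * L ≤
      (({j : Fin (L + 1) | (∃ q, w q j ≠ 0) ∧ ∃ x : ℝ, ∑ q, w q j * x ^ (q : ℕ) = 0 ∧
        |γ (n + j) - x| ≤ δ * Real.sqrt (Real.log L) / Real.log (γ n)} :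
          Set (Fin (L + 1))).ncard : ℝ)}.ncard : ℝ) ≤ η * N :=
  Pool.Agent.R846.VE.alg_sub d hρ

end Pool.Agent.Results.MP_ec260d_nt.AlgebraicEquations
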