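import Pool.Agent.R846.SP.B

/-!
# In almost all runs the ordinates are far from every function with few inflection points

Let `0 < γ_1 ≤ γ_2 ≤ …` be the ordinates of the nontrivial zeros of the zeta function, with
multiplicity.  No hypothesis is assumed.  For every `d` and `M`, however large, almost no run of
`L + 1` consecutive ordinates `γ_n, …, γ_{n+L}` (`L` large, `L log L ≤ log n`) is approximated within
`M √(log L)` times the mean spacing by a function of the index which is convex or concave on each of
`d` consecutive parts of the run, for instance by a polynomial of degree at most `d + 1`, or by an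
algebraic function of bounded degree.  The function may depend on `n`.

Idea of the proof.  One of the parts contains three consecutive blocks of `m` indices, where
`m = (L + 1) / (3 d)`.  If the function `f` is convex there, then its increments `f(j + m) - f(j)`
increase.  The sums of `m` consecutive normalised gaps starting in one block obey the normal law for
almost all `n` (normal law along almost all runs, `Pool.Agent.R321.QA.quenched`, helper321).  So in
the second block there is a sum which is at most `m + √(log m)/π`; hence all the sums starting in the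
first block exceed `m` at most by a bounded multiple of `√(log m)`, which contradicts the normal law
there.
-/

set_option autoImplicit false

namespace Pool.Agent.Results.MP_ec260d_nt.FarFromSimpleCurves

/-- multiplicity of `s` as a zero of the Riemann zeta function (order of vanishing at `s`) -/
noncomputable def zmult (s : ℂ) : ℕ := analyticOrderNatAt riemannZeta s

/-- the number of nontrivial zeros of `ζ` with ordinate in `(0, t]`, with multiplicity -/
noncomputable def NZ (t : ℝ) : ℕ :=
  ∑ᶠ s ∈ {s : ℂ | riemannZeta s = 0 ∧ 0 < s.re ∧ s.re < 1 ∧ 0 < s.im ∧ s.im ≤ t}, zmult s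

/-- for `n ≥ 1`: the `n`-th positive ordinate `γ n` of a nontrivial zero of `ζ`, the ordinates being
listed in nondecreasing order and repeated according to multiplicity -/
noncomputable def γ (n : ℕ) : ℝ := sInf {t : ℝ | n ≤ NZ t}

/-- `{0, …, L}` can be cut into `d` consecutive parts `{b i, …, b (i+1) - 1}` such that `f` is convex
or concave on each part -/
def Shape (d L : ℕ) (f : ℕ → ℝ) : Prop :=
  ∃ b : ℕ → ℕ, Monotone b ∧ b 0 = 0 ∧ b d = L + 1 ∧ ∀ i < d,
    (∀ j, b i ≤ j → j + 2 < b (i + 1) → 2 * f (j + 1) ≤ f j + f (j + 2)) ∨
    (∀ j, b i ≤ j → j + 2 < b (i + 1) → f j + f (j + 2) ≤ 2 * f (j + 1))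

/-- **Theorem** (no hypothesis).  For all `d`, `M` and `η > 0` there is `L₀` such that for all
`L ≥ L₀` and all `N ≥ 1` with `L log L ≤ log N`, at most `η N` of the indices `n ≤ N` have the
property that some function `f`, convex or concave on each of `d` consecutive parts of `{0, …, L}`,
satisfies `|γ_{n+j} - f(j)| ≤ M √(log L) / log γ_n` for all `0 ≤ j ≤ L`. -/
theorem result (d : ℕ) (M η : ℝ) (hη : 0 < η) : ∃ L₀ : ℕ, ∀ L : ℕ, L₀ ≤ L → ∀ N : ℕ, 1 ≤ N →
    L * Real.log L ≤ Real.log N →
    ({n : ℕ | 1 ≤ n ∧ n ≤ N ∧ ∃ f : ℕ → ℝ, Shape d L f ∧ ∀ j ≤ L,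
      |γ (n + j) - f j| ≤ M * Real.sqrt (Real.log L) / Real.log (γ n)}.ncard : ℝ) ≤ η * N :=
  Pool.Agent.R846.SP.shape_main d M hη

end Pool.Agent.Results.MP_ec260d_nt.FarFromSimpleCurves
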