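import Pool.Agent.R846.UL.PolyI

/-!
# Almost no bounded run of consecutive ordinates satisfies a polynomial recurrence

Let `0 < γ_1 ≤ γ_2 ≤ …` be the ordinates of the nontrivial zeros of the zeta function, with
multiplicity.  No hypothesis is assumed.  Consider relations `P(γ_m, …, γ_{m+k-1}) = b` between `k`
consecutive ordinates, where `P` is a real polynomial of degree at most `d` whose form of degree `d`
has a nonzero gradient at `(1, …, 1)`.  For every `k` and `η > 0` there are `ε > 0` and `L`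
such that for all `d`, all `θ < 1`, all large `N` and all `n ≤ N` with at most `η N` exceptions, no
such relation holds for all `m` with `n ≤ m ≤ n + L`, even approximately.  The polynomial may depend
on `n`; its coefficients may be as large as `γ_n ^ θ` times the gradient.

The proof reduces this by a Taylor expansion (lemma `near_diag` of the starting files) to the linear
relations, treated in `Pool.Agent.R846.UL` (see the hand-in `MP_0ec205_nt.NoLocalRecurrence`).
-/

set_option autoImplicit false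

open Filter MvPolynomial

namespace Pool.Agent.Results.MP_ec260d_nt.NoLocalPolynomialRecurrence

/-- multiplicity of `s` as a zero of the Riemann zeta function (order of vanishing at `s`) -/
noncomputable def zmult (s : ℂ) : ℕ := analyticOrderNatAt riemannZeta s

/-- the number of nontrivial zeros of `ζ` with ordinate in `(0, t]`, with multiplicity -/
noncomputable def NZ (t : ℝ) : ℕ :=
  ∑ᶠ s ∈ {s : ℂ | riemannZeta s = 0 ∧ 0 < s.re ∧ s.re < 1 ∧ 0 < s.im ∧ s.im ≤ t}, zmult s

/-- for `n ≥ 1`: the `n`-th positive ordinate `γ n` of a nontrivial zero of `ζ`, the ordinates being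
listed in nondecreasing order and repeated according to multiplicity -/
noncomputable def γ (n : ℕ) : ℝ := sInf {t : ℝ | n ≤ NZ t}

/-- the `i`-th partial derivative at `(1, …, 1)` of the homogeneous component of degree `d` -/
noncomputable def grad {k : ℕ} {R : Type} [CommRing R] (d : ℕ) (P : MvPolynomial (Fin k) R)
    (i : Fin k) : R :=
  eval (fun _ => 1) (pderiv i (homogeneousComponent d P))

/-- at the index `n` some polynomial relation holds approximately on a run: there are a real
polynomial `P` in `k` variables of degree at most `d`, an `i` with `A = |grad d P i| > 0` such that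
all coefficients are at most `A γ_n ^ θ`, and a real `b`, with
`|P(γ_m, …, γ_{m+k-1}) - b| < ε A γ_n ^ (d-1) / log γ_n` for `n ≤ m ≤ n + L` -/
def Recurrence (k d L : ℕ) (θ ε : ℝ) (n : ℕ) : Prop :=
  ∃ P : MvPolynomial (Fin k) ℝ, P.totalDegree ≤ d ∧ ∃ i : Fin k, grad d P i ≠ 0 ∧
    (∀ s, |coeff s P| ≤ |grad d P i| * γ n ^ θ) ∧
    ∃ b : ℝ, ∀ m : ℕ, n ≤ m → m ≤ n + L →
      |eval (fun j : Fin k => γ (m + j)) P - b| <
        ε * |grad d P i| * γ n ^ (d - 1) / Real.log (γ n)

/-- at the index `n` a polynomial relation with integral coefficients holds on a run: there is a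
polynomial `P` of degree at most `d` with integral coefficients, at most `γ_n ^ θ` in absolute value,
and with `grad d P i ≠ 0` for some `i`, such that `P(γ_m, …, γ_{m+k-1}) = 0` for
`n ≤ m ≤ n + L` -/
def IntegralRecurrence (k d L : ℕ) (θ : ℝ) (n : ℕ) : Prop :=
  ∃ P : MvPolynomial (Fin k) ℤ, P.totalDegree ≤ d ∧ (∃ i : Fin k, grad d P i ≠ 0) ∧
    (∀ s, |((coeff s P : ℤ) : ℝ)| ≤ γ n ^ θ) ∧
    ∀ m : ℕ, n ≤ m → m ≤ n + L → aeval (fun j : Fin k => γ (m + j)) P = 0

lemma grad_map {k : ℕ} (d : ℕ) (P : MvPolynomial (Fin k) ℤ) (i : Fin k) :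
    grad d (map (Int.castRingHom ℝ) P) i = ((grad d P i : ℤ) : ℝ) := by
  unfold grad
  have h0 : homogeneousComponent d (map (Int.castRingHom ℝ) P) =
      map (Int.castRingHom ℝ) (homogeneousComponent d P) := by
    ext s
    rw [coeff_homogeneousComponent, coeff_map, coeff_map, coeff_homogeneousComponent]
    split_ifs
    · rfl
    · simp
  rw [h0, pderiv_map, eval_map]
  have h := eval₂_comp_left (Int.castRingHom ℝ) (RingHom.id ℤ) (fun _ : Fin k => (1 : ℤ))
    (pderiv i (homogeneousComponent d P))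
  have h2 : (Int.castRingHom ℝ) (eval (fun _ : Fin k => (1 : ℤ))
      (pderiv i (homogeneousComponent d P))) = eval₂ (Int.castRingHom ℝ) (fun _ => 1)
      (pderiv i (homogeneousComponent d P)) := by
    have h3 : eval (fun _ : Fin k => (1 : ℤ)) (pderiv i (homogeneousComponent d P)) =
        eval₂ (RingHom.id ℤ) (fun _ => 1) (pderiv i (homogeneousComponent d P)) := rfl
    rw [h3, h]
    congr 1
    funext j
    simp
  exact h2.symm

/-- **Theorem** (no hypothesis).  For all `k` and `η > 0` there are `ε > 0` and `L` such that for all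
`d ≥ 1` and `θ < 1` and all sufficiently large `N` at most `η N` of the indices `n ≤ N` satisfy
`Recurrence k d L θ ε n` or `IntegralRecurrence k d L θ n`. -/
theorem result (k : ℕ) (η : ℝ) (hη : 0 < η) :
    ∃ (ε : ℝ) (L : ℕ), 0 < ε ∧ ∀ d : ℕ, 1 ≤ d → ∀ θ : ℝ, θ < 1 → ∃ N₀ : ℕ, ∀ N : ℕ, N₀ ≤ N →
      ({n : ℕ | 1 ≤ n ∧ n ≤ N ∧ (Recurrence k d L θ ε n ∨ IntegralRecurrence k d L θ n)}.ncard : ℝ)
        ≤ η * N := by
  obtain ⟨ε, L, hε, h⟩ := Pool.Agent.R846.UL.poly_mainI k (by positivity : 0 < η / 2)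
  refine ⟨ε, L, hε, fun d hd θ hθ => ?_⟩
  obtain ⟨N₀, hN₀⟩ := h d hd θ hθ
  obtain ⟨n1, hn1⟩ :=
    (Pool.Agent.Y743.LR.ord_tendsto.eventually_ge_atTop 3).exists_forall_of_atTop
  obtain ⟨N1, hN1⟩ := exists_nat_ge (2 * (n1 : ℝ) / η)
  refine ⟨max N₀ N1, fun N hN => ?_⟩
  have h1 := hN₀ N ((le_max_left _ _).trans hN)
  have h2 : 2 * (n1 : ℝ) / η ≤ N := hN1.trans (by exact_mod_cast (le_max_right _ _).trans hN)
  rw [div_le_iff₀ hη] at h2
  set B : Set ℕ := {n | ∃ P : MvPolynomial (Fin k) ℝ, P.totalDegree ≤ d ∧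
      ∃ i : Fin k, Pool.Agent.Y743.PR.grad d P i ≠ 0 ∧
      (∀ s, |coeff s P| ≤ |Pool.Agent.Y743.PR.grad d P i| * SG.ord n ^ θ) ∧
      ∃ b : ℝ, ∀ m : ℕ, n ≤ m → m ≤ n + L →
        |eval (fun j : Fin k => SG.ord (m + j)) P - b| <
          ε * |Pool.Agent.Y743.PR.grad d P i| * SG.ord n ^ (d - 1) / Real.log (SG.ord n)} with hB
  have h3 : Pool.Agent.R846.UL.cn N {n | Recurrence k d L θ ε n ∨ IntegralRecurrence k d L θ n} ≤
      Pool.Agent.R846.UL.cn N ({n | n < n1} ∪ B) := by
    refine Pool.Agent.R846.UL.cn_mono fun n _ _ hn => ?_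
    rcases lt_or_ge n n1 with hlt | hge
    · exact Or.inl hlt
    right
    rcases hn with hn | ⟨P, hPd, ⟨i, hi⟩, hco, hrel⟩
    · exact hn
    have hx : (3 : ℝ) ≤ γ n := hn1 n hge
    have hx0 : 0 < γ n := by linarith
    have hL : 0 < Real.log (γ n) := Real.log_pos (by linarith)
    have hg : (1 : ℝ) ≤ |((grad d P i : ℤ) : ℝ)| := by
      exact_mod_cast Int.one_le_abs hi
    refine ⟨map (Int.castRingHom ℝ) P, (Finset.sup_mono (support_map_subset _ _)).trans hPd, i, ?_, ?_, 0, ?_⟩
    · show grad d (map (Int.castRingHom ℝ) P) i ≠ 0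
      rw [grad_map]
      exact_mod_cast hi
    · intro s
      show |coeff s (map (Int.castRingHom ℝ) P)| ≤ |grad d (map (Int.castRingHom ℝ) P) i| * γ n ^ θ
      rw [grad_map, coeff_map]
      have h4 : |(Int.castRingHom ℝ) (coeff s P)| ≤ γ n ^ θ := hco s
      have h5 : 0 ≤ γ n ^ θ := by positivity
      nlinarith
    · intro m hm1 hm2
      show |eval (fun j : Fin k => γ (m + j)) (map (Int.castRingHom ℝ) P) - 0| <
        ε * |grad d (map (Int.castRingHom ℝ) P) i| * γ n ^ (d - 1) / Real.log (γ n)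
      have h4 : eval (fun j : Fin k => γ (m + j)) (map (Int.castRingHom ℝ) P) = 0 := by
        rw [eval_map]
        have := hrel m hm1 hm2
        rw [aeval_def] at this
        exact this
      rw [h4, sub_zero, abs_zero, grad_map]
      positivity
  have h4 : Pool.Agent.R846.UL.cn N ({n | n < n1} ∪ B) ≤ η / 2 * N + η / 2 * N := by
    refine (Pool.Agent.R846.UL.cn_union _ _ _).trans (add_le_add ?_ h1)
    refine (Pool.Agent.R846.UL.cn_lt _ _).trans ?_
    linarith
  have h5 := h3.trans h4
  have h6 : ({n : ℕ | 1 ≤ n ∧ n ≤ N ∧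
      (Recurrence k d L θ ε n ∨ IntegralRecurrence k d L θ n)}.ncard : ℝ) =
      Pool.Agent.R846.UL.cn N {n | Recurrence k d L θ ε n ∨ IntegralRecurrence k d L θ n} := rfl
  rw [h6]
  linarith

end Pool.Agent.Results.MP_ec260d_nt.NoLocalPolynomialRecurrence
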