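import Pool.Agent.R320.PR.Main

/-!
# Polynomial relations between separated ordinates are rare, even approximately

No hypothesis.  Fix the number `k + 1` of ordinates and the degree `d`.  Let `r` be large and let
`b_1, ..., b_k ≤ r` be shifts which are separated from `0` and from each other by at least `r ^ σ`.
For every nonzero real polynomial `P` of degree at most `d` in `k + 1` variables, the relation
`P (γ_n, γ_{n + b_1}, ..., γ_{n + b_k}) = 0` fails for all but at most `η N` of the `n ≤ N`, and it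
still fails after `γ_{n + b_1}, ..., γ_{n + b_k}` have been changed by `δ √(log r)` mean spacings.
`P` may depend on `N`, `r` and the shifts; its coefficients are arbitrary real numbers.
-/

open Filter

namespace Pool.Agent.Results.MP_ec260d_nt.PolynomialRelations

/-- multiplicity of `s` as a zero of the Riemann zeta function (order of vanishing at `s`) -/
noncomputable def zmult (s : ℂ) : ℕ := analyticOrderNatAt riemannZeta s

/-- the number of nontrivial zeros of `ζ` with ordinate in `(0, t]`, with multiplicity -/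
noncomputable def NZ (t : ℝ) : ℕ :=
  ∑ᶠ s ∈ {s : ℂ | riemannZeta s = 0 ∧ 0 < s.re ∧ s.re < 1 ∧ 0 < s.im ∧ s.im ≤ t}, zmult s

/-- for `n ≥ 1`: the `n`-th positive ordinate `γ n` of a nontrivial zero of `ζ`, the ordinates being
listed in nondecreasing order and repeated according to multiplicity -/
noncomputable def γ (n : ℕ) : ℝ := sInf {t : ℝ | n ≤ NZ t}

/-- `P (γ_n, y_1, ..., y_k) = 0` for some real `y_1, ..., y_k` with `|γ_{n + b_i} - y_i| ≤ ε / log γ_n`
(that is, within `ε / 2π` mean spacings) for all `i` -/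
def Related {k : ℕ} (P : MvPolynomial (Fin (k + 1)) ℝ) (b : Fin k → ℕ) (ε : ℝ) (n : ℕ) : Prop :=
  ∃ y : Fin k → ℝ, MvPolynomial.eval (Fin.cons (γ n) y : Fin (k + 1) → ℝ) P = 0 ∧
    ∀ i, |γ (n + b i) - y i| ≤ ε / Real.log (γ n)

open Classical in
/-- **Polynomial relations between separated ordinates are rare.**  For all `k`, `d`, `σ > 0` and
`η > 0` there are `δ > 0` and `r₀` such that for all `r ≥ r₀`, all `N ≥ 1` with `r log r ≤ log N`, all
shifts `r ^ σ ≤ b_1, ..., b_k ≤ r` with `|b_i - b_j| ≥ r ^ σ` for `i ≠ j`, and all nonzero real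
polynomials `P` in `k + 1` variables of total degree at most `d`, at most `η N` of the `n ≤ N` are such
that `P (γ_n, y_1, ..., y_k) = 0` for some real `y_i` with `|γ_{n + b_i} - y_i| ≤ δ √(log r) / log γ_n`. -/
theorem result (k d : ℕ) (σ η : ℝ) (hσ : 0 < σ) (hη : 0 < η) :
    ∃ δ : ℝ, 0 < δ ∧ ∃ r₀ : ℕ, ∀ r : ℕ, r₀ ≤ r → ∀ N : ℕ, 1 ≤ N → r * Real.log r ≤ Real.log N →
      ∀ b : Fin k → ℕ, (∀ i, (r : ℝ) ^ σ ≤ b i ∧ b i ≤ r) →
      (∀ i j, i ≠ j → (r : ℝ) ^ σ ≤ |(b i : ℝ) - b j|) →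
      ∀ P : MvPolynomial (Fin (k + 1)) ℝ, P ≠ 0 → P.totalDegree ≤ d →
      (((Finset.Icc 1 N).filter (Related P b (δ * Real.sqrt (Real.log r)))).card : ℝ) ≤ η * N := by
  obtain ⟨δ, hδ, h⟩ := Pool.Agent.R320.PR.main k d σ η hσ hη
  obtain ⟨r₀, h⟩ := h.exists_forall_of_atTop
  refine ⟨δ, hδ, r₀, fun r hr N hN hrN b hb hbb P hP hPd => ?_⟩
  refine h r hr N hN hrN b (fun i => ⟨(hb i).2, (hb i).1⟩) hbb P hP hPd _ ?_
  intro n hn
  rw [Finset.mem_filter, Finset.mem_Icc] at hn
  obtain ⟨⟨h1, h2⟩, y, hy1, hy2⟩ := hn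
  refine ⟨h1, h2, y, hy1, fun i => ?_⟩
  rw [← mul_div_assoc]
  exact hy2 i

end Pool.Agent.Results.MP_ec260d_nt.PolynomialRelations
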